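import Pool.Agent.helper61.BM.Defs

/-!
# Project BL (MP_143341_co, Bermond's degree pair condition): all large `n`, rows

THEOREM. Let `G` be 2-connected on `n ≥ 2 ^ (c ^ 4)` vertices, `c ≥ 3`, with an enumeration without obstructing pair. Then `G` has a
cycle of length at least `c`.

PLAN. (LOW) Without obstructing pair at most `c` vertices have degree `< c / 2`. (PBD) 2-connected without long cycles: paths have at most
`(c - 1) ^ 2` vertices. (CMP) So there is a set `A` of at most `(c - 1) ^ 2` vertices such that `G - A` has very many components. (PIG) Many of them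
contain no vertex of low degree and have the same neighbourhood `S` in `A`. (STW, STD) The graph on `S` and these components is 2-connected with
minimum degree `≥ k = ⌈c/2⌉`. (DIR) Dirac: it has a cycle of length `≥ 2 k ≥ c`.

RULES. Row `bl:XX`: file `Pool/Agent/<seat>/BL/XX.lean`, `import Pool.Agent.helper55.BL.Spec`, `namespace Pool.Agent.helper55.BL`,
`open Finset`, `open scoped Classical`, `open Pool.Agent.helper61.BM (Clo dg)`, theorem `XX (hYY : YY_stmt) ... : XX_stmt` with the hypotheses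
named after `From` in this order (unused ones may stay with an underscore); auxiliary lemmas with prefix `XX_`. No `convert`, no `congr!`,
no double quotes. Unused hypotheses of a statement are harmless: report a FALSE statement at once.
-/

set_option autoImplicit false

namespace Pool.Agent.helper55.BL

open Finset
open scoped Classical
open Pool.Agent.helper61.BM (Clo dg)

/-- path, as a list of different vertices -/
def Pa {V : Type} (G : SimpleGraph V) (l : List V) : Prop := l.Nodup ∧ l.IsChain G.Adj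

/-- no cut vertex -/
def Two {V : Type} (G : SimpleGraph V) : Prop :=
  ∀ (x : V) (A : Finset V), x ∉ A → A.Nonempty → (∃ y, y ∉ A ∧ y ≠ x) →
    ∃ u ∈ A, ∃ v, v ∉ A ∧ v ≠ x ∧ G.Adj u v

/-- path `p 0, …, p m` -/
structure Pth {V : Type} (G : SimpleGraph V) (m : ℕ) (p : ℕ → V) : Prop where
  inj : ∀ i j, i ≤ m → j ≤ m → p i = p j → i = j
  adj : ∀ i, i < m → G.Adj (p i) (p (i + 1))

/-- two disjoint paths from `p i`, `p a` (`i < a`) to `p t`, `p q` (`t < q`), in one of the two orders, which contain no other `p j` with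
`j < a` or `j > t` -/
structure TP {V : Type} (G : SimpleGraph V) (m : ℕ) (p : ℕ → V) (a t i q : ℕ) (R₁ R₂ : List V) : Prop where
  hi : i < a
  hq : t < q
  hm : q ≤ m
  p₁ : Pa G R₁
  p₂ : Pa G R₂
  dj : R₁.Disjoint R₂
  h₁ : R₁.head? = some (p i)
  h₂ : R₂.head? = some (p a)
  la : (R₁.getLast? = some (p q) ∧ R₂.getLast? = some (p t)) ∨ (R₁.getLast? = some (p t) ∧ R₂.getLast? = some (p q))
  lo : ∀ j, j < a → (p j ∈ R₁ ∨ p j ∈ R₂) → j = i
  up : ∀ j, t < j → j ≤ m → (p j ∈ R₁ ∨ p j ∈ R₂) → j = q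

/-- `D` is connected, disjoint from `A`, and its neighbours are in `D ∪ A` (a component of `G - A`) -/
structure Frag {V : Type} (G : SimpleGraph V) (A D : Finset V) : Prop where
  ne : D.Nonempty
  dj : Disjoint A D
  cn : ∀ B : Finset V, B ⊆ D → B.Nonempty → B ≠ D → ∃ u ∈ B, ∃ v ∈ D, v ∉ B ∧ G.Adj u v
  nb : ∀ u ∈ D, ∀ v, G.Adj u v → v ∈ D ∨ v ∈ A

/-- the vertices of `A` with a neighbour in `E` -/
noncomputable def nbA {V : Type} (G : SimpleGraph V) (A E : Finset V) : Finset V :=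
  A.filter (fun v => ∃ u ∈ E, G.Adj u v)

/-! ### Paths in 2-connected graphs -/

/-- **SHP** (short-medium). `x` is avoided; shortest path from `S` to `T`. Existence: the set of the vertices which can be reached from `S` by a path
avoiding `x` is not closed unless it meets `T` (`Two`). A path of least length has no further vertex in `S` or `T` (otherwise cut it). -/
def SHP_stmt : Prop := ∀ (V : Type) [Fintype V] (G : SimpleGraph V), Two G → ∀ (x : V) (S T : Finset V),
  x ∉ S → x ∉ T → S.Nonempty → T.Nonempty →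
  ∃ l : List V, Pa G l ∧ x ∉ l ∧ (∃ s ∈ S, l.head? = some s) ∧ (∃ t ∈ T, l.getLast? = some t) ∧
    (∀ v ∈ l, v ∈ S → l.head? = some v) ∧ (∀ v ∈ l, v ∈ T → l.getLast? = some v)

/-- **TWP** (medium-long, from SHP). Induction on `t`. `t = a`: SHP for `x = p a`, `S = {p j | j < a}`, `T = {p j | a < j ≤ m}` gives `R₁`, and `R₂ = [p a]`.
`t → t + 1 < m`: (1) `q > t + 1`: append `p (t+1)` to the path which ends at `p t`. (2) `q = t + 1`: SHP for `x = p (t+1)`,
`S = (R₁ ∪ R₂ ∪ {p j | j < a}) \ {p (t+1)}`, `T = {p j | t + 2 ≤ j ≤ m}` gives `l` from `w ∈ S` to `p q'`. (2a) `w` is on the path which ends at `p t`: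
cut it at `w` and continue with `l`, the other path ends at `p (t+1)`. (2b) `w` is on the path which ends at `p (t+1)`: cut it at `w` and continue with `l`; append `p (t+1)`
to the other path. (2c) `w = p j`, `j < a`, not on `R₁`, `R₂`: the new `R₁` is `l`; the new `R₂` is `R₂` if it ends at `p (t+1)`, otherwise `R₂` with `p (t+1)` appended. -/
def TWP_stmt : Prop := ∀ (V : Type) [Fintype V] (G : SimpleGraph V) (m : ℕ) (p : ℕ → V), Two G → Pth G m p →
  ∀ a t, 0 < a → a ≤ t → t < m → ∃ i q R₁ R₂, TP G m p a t i q R₁ R₂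

/-- **CLS** (medium). The closed path: `X` from `p i` to `p a`, then `R₂`, then `Y` (reversed or not), then `R₁` reversed back to `p i` (without repeating the ends). `X ∩ R₁ = {p i}`, `X ∩ R₂ = {p a}`, `Y ∩ (R₁ ∪ R₂) = {p t, p q}`, `X ∩ Y = ∅` if `a < t`.
If `a = t` then (`dj`) `R₂` starts and ends at `p a`, so `R₂ = [p a]`, `X ∩ Y = {p a}` and the closed path is `X`, `Y.tail`, the interior of `R₁` reversed. -/
def CLS_stmt : Prop := ∀ (V : Type) (G : SimpleGraph V) (m : ℕ) (p : ℕ → V), Pth G m p → ∀ (a t i q : ℕ) (R₁ R₂ : List V), a ≤ t →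
  TP G m p a t i q R₁ R₂ → ∀ X Y : List V, Pa G X → Pa G Y → X.head? = some (p i) → X.getLast? = some (p a) →
  Y.head? = some (p t) → Y.getLast? = some (p q) → (∀ v ∈ X, ∃ j, j ≤ a ∧ p j = v) → (∀ v ∈ Y, ∃ j, t ≤ j ∧ j ≤ m ∧ p j = v) →
  ∃ l : List V, Clo G l ∧ (∀ v ∈ X, v ∈ l) ∧ (∀ v ∈ Y, v ∈ l)

/-- **COM** (short, from TWP, CLS). `a = 1`, `t = m - 1`: `i = 0`, `q = m`, `X = [p 0, p 1]`, `Y = [p (m-1), p m]`. -/
def COM_stmt : Prop := ∀ (V : Type) [Fintype V] (G : SimpleGraph V) (m : ℕ) (p : ℕ → V), Two G → Pth G m p → 2 ≤ m →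
  ∃ l : List V, Clo G l ∧ 3 ≤ l.length ∧ p 0 ∈ l ∧ p m ∈ l

/-- **ARC** (short-medium). Rotate `l` so that `u` is the first vertex: `u :: A ++ v :: B`; `A` or `B` is not empty. Close `Q` by `B`, or by `A.reverse`. -/
def ARC_stmt : Prop := ∀ (V : Type) (G : SimpleGraph V) (l Q : List V) (u v : V), Clo G l → 3 ≤ l.length → Pa G Q →
  Q.head? = some u → Q.getLast? = some v → u ≠ v → u ∈ l → v ∈ l → (∀ w ∈ Q, w ∈ l → w = u ∨ w = v) →
  ∃ l' : List V, Clo G l' ∧ Q.length + 1 ≤ l'.length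

/-- **PBD** (medium, from COM, ARC). `m ≤ 1`: clear (`s ≥ 2`). `m ≥ 2`: `l` from COM. Let `I` be the set of the `j ≤ m` with `p j ∈ l`; `#I ≤ s`, `0, m ∈ I`. For consecutive elements `j < j'` of `I` the part `p j, …, p j'` of the path and
ARC give `j' - j + 2 ≤ s`. Map `i ≤ m` to the greatest element of `I` which is `≤ i`: the fibres have at most `s` elements. -/
def PBD_stmt : Prop := ∀ (V : Type) [Fintype V] (G : SimpleGraph V) (s : ℕ), Two G → 2 ≤ s → (∀ l : List V, Clo G l → l.length ≤ s) →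
  ∀ (m : ℕ) (p : ℕ → V), Pth G m p → m + 1 ≤ s * s

/-! ### Dirac's theorem on the circumference of 2-connected graphs -/

/-- **LPA** (short-medium). A longest path (`m < card V`). -/
def LPA_stmt : Prop := ∀ (V : Type) [Fintype V] [Nonempty V] (G : SimpleGraph V),
  ∃ (m : ℕ) (p : ℕ → V), Pth G m p ∧ (∀ q : ℕ → V, ¬ Pth G (m + 1) q) ∧
    (∀ v, G.Adj (p 0) v → ∃ j, j ≤ m ∧ p j = v) ∧ (∀ v, G.Adj (p m) v → ∃ j, j ≤ m ∧ p j = v)

/-- **DIA** (medium, from TWP, CLS). TWP for `a`, `t = b`: `i < a`, `q > b`. `r` = the least `j > i` with `p 0 ~ p j` (`r ≤ a`), `X = p i, p (i-1), …, p 0, p r, p (r+1), …, p a`;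
`r'` = the greatest `j < q` with `p m ~ p j` (`r' ≥ b`), `Y = p b, …, p r', p m, p (m-1), …, p q`. `X` contains `p 0` and all neighbours of `p 0`, `Y` contains `p m` and all neighbours of `p m`, at most one vertex is in both sets
(the first has indices `≤ a`, the second `≥ b`). -/
def DIA_stmt : Prop := ∀ (V : Type) [Fintype V] (G : SimpleGraph V) (m : ℕ) (p : ℕ → V) (k a b : ℕ), Two G → Pth G m p →
  (∀ v, G.Adj (p 0) v → ∃ j, j ≤ m ∧ p j = v) → (∀ v, G.Adj (p m) v → ∃ j, j ≤ m ∧ p j = v) →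
  0 < a → a ≤ b → b < m → G.Adj (p 0) (p a) → (∀ j, j ≤ m → G.Adj (p 0) (p j) → j ≤ a) →
  G.Adj (p m) (p b) → (∀ j, j ≤ m → G.Adj (p m) (p j) → b ≤ j) → k ≤ dg G (p 0) → k ≤ dg G (p m) →
  ∃ l : List V, Clo G l ∧ 2 * k ≤ l.length

/-- **DIB** (medium). Choose such `i < j` with `j - i` minimal. If `j = i + 1`: the closed path `p 0, …, p i, p m, …, p (i+1)` has `m + 1` vertices; if it does not contain all vertices then (`G` is connected: `Two` and `3 ≤ card V`) a vertex outside is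
adjacent to one of its vertices, which gives a path with `m + 2` vertices. So `m + 1 = card V ≥ 2 k`. If `j > i + 1`: `p 0` and `p m` have no neighbour `p l`, `i < l < j`, and never `p m ~ p l`, `p 0 ~ p (l+1)`. The closed path
`p 0, …, p i, p m, …, p j` contains `p m`, the `≥ k` neighbours of `p m` and the `≥ k - 1` vertices `p l`, `l + 1 ≠ j`, `p 0 ~ p (l+1)`, all different. -/
def DIB_stmt : Prop := ∀ (V : Type) [Fintype V] (G : SimpleGraph V) (m : ℕ) (p : ℕ → V) (k i j : ℕ), Two G → 3 ≤ Fintype.card V →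
  2 * k ≤ Fintype.card V → Pth G m p → (∀ q : ℕ → V, ¬ Pth G (m + 1) q) →
  (∀ v, G.Adj (p 0) v → ∃ j, j ≤ m ∧ p j = v) → (∀ v, G.Adj (p m) v → ∃ j, j ≤ m ∧ p j = v) →
  i < j → j ≤ m → G.Adj (p m) (p i) → G.Adj (p 0) (p j) → k ≤ dg G (p 0) → k ≤ dg G (p m) →
  ∃ l : List V, Clo G l ∧ 2 * k ≤ l.length

/-- **DIR** (short, from LPA, DIA, DIB). `a` = the greatest `j` with `p 0 ~ p j`, `b` = the least `j` with `p m ~ p j`. `a ≤ b`: DIA; `b < a`: DIB for `i = b`, `j = a`. -/
def DIR_stmt : Prop := ∀ (V : Type) [Fintype V] (G : SimpleGraph V) (k : ℕ), Two G → 2 ≤ k → (∀ v, k ≤ dg G v) → 2 * k ≤ Fintype.card V →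
  ∃ l : List V, Clo G l ∧ 2 * k ≤ l.length

/-! ### Components -/

/-- **CPS** (short-medium). The components of `G` induced on `D`: for `v ∈ D` the set of the vertices which can be reached from `v` inside `D`; or strong induction on `D`: a minimal nonempty closed subset. -/
def CPS_stmt : Prop := ∀ (V : Type) [Fintype V] (G : SimpleGraph V) (A D : Finset V), Disjoint A D →
  (∀ u ∈ D, ∀ v, G.Adj u v → v ∈ D ∨ v ∈ A) →
  ∃ F : Finset (Finset V), (∀ E ∈ F, Frag G A E ∧ E ⊆ D) ∧ (∀ E ∈ F, ∀ E' ∈ F, E ≠ E' → Disjoint E E') ∧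
    (∀ v ∈ D, ∃ E ∈ F, v ∈ E)

/-- **CMP** (medium, from CPS). Induction on `L`. `L = 0`: `p = r` constant. `L + 1`: CPS for `insert r A`, `D.erase r` gives `F`. If `M ≤ #F`: first alternative. Otherwise `#D - 1 ≥ (M+1)^(L+1) - 1 ≥ M (M+1)^L`, so some `E ∈ F` has at least `(M+1)^L` elements; as `D` is connected an
element `r'` of `E` has a neighbour in `D \ E`, which must be `r`. Induction for `insert r A`, `E`, `r'`; in the second alternative put `r` in front. -/
def CMP_stmt : Prop := ∀ (V : Type) [Fintype V] (G : SimpleGraph V) (M : ℕ), 1 ≤ M → ∀ (L : ℕ) (A D : Finset V) (r : V),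
  Frag G A D → r ∈ D → (M + 1) ^ L ≤ D.card →
  (∃ A' : Finset V, A'.card ≤ A.card + L ∧ ∃ F : Finset (Finset V), M ≤ F.card ∧ (∀ E ∈ F, Frag G A' E) ∧
    (∀ E ∈ F, ∀ E' ∈ F, E ≠ E' → Disjoint E E')) ∨
  (∃ p : ℕ → V, Pth G L p ∧ p 0 = r ∧ ∀ j, j ≤ L → p j ∈ D)

/-- **PIG** (short-medium). At most `#Z` elements of `F` meet `Z` (choose an element of the intersection; disjointness); pigeonhole for `f` on the others. -/
def PIG_stmt : Prop := ∀ (V : Type) [Fintype V] (A Z : Finset V) (F : Finset (Finset V)) (f : Finset V → Finset V) (K : ℕ),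
  (∀ E ∈ F, ∀ E' ∈ F, E ≠ E' → Disjoint E E') → (∀ E ∈ F, f E ⊆ A) → Z.card + 2 ^ A.card * K < F.card →
  ∃ S : Finset V, S ⊆ A ∧ ∃ F' : Finset (Finset V), F' ⊆ F ∧ K < F'.card ∧ ∀ E ∈ F', f E = S ∧ Disjoint E Z

/-- **STW** (medium). First `S` has two elements: for `E₁ ∈ F` and `x ∉ E₁`, `Two G` for `x`, `E₁` (there are at least two vertices in the other members of `F`) gives an element `≠ x` of `S`; take first `x` in another member, then `x = ` this element (`S` is disjoint from `E₁`).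
Now let `x`, `B` be given in the smaller graph, and `B'` the set of the other vertices `≠ x`; suppose there is no edge between `B` and `B'`. A member of `F` without `x` is inside `B` or inside `B'` (connected); every `s ∈ S`, `s ≠ x`, is adjacent to all members of `F`; so all these
are on the same side, say `B`, and `B' ⊆ E \ {x}` for the member `E ∋ x`. `Two G` for `x`, `B'` gives an edge from `B'` to a vertex `v ≠ x`, `v ∉ B'`, and `v ∈ E ∪ S`: it is in `B`. (By symmetry the same with `B`, `B'` exchanged.) -/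
def STW_stmt : Prop := ∀ (V : Type) [Fintype V] (G : SimpleGraph V) (A S : Finset V) (F : Finset (Finset V)), Two G →
  (∀ E ∈ F, Frag G A E ∧ nbA G A E = S) → (∀ E ∈ F, ∀ E' ∈ F, E ≠ E' → Disjoint E E') → 3 ≤ F.card →
  Two (G.comap (Subtype.val : ↥(S ∪ F.biUnion id) → V))

/-- **STD** (short-medium). A vertex of `E ∈ F` has all its neighbours in `E ∪ S`; a vertex of `S` has a neighbour in every member of `F`. -/
def STD_stmt : Prop := ∀ (V : Type) [Fintype V] (G : SimpleGraph V) (A S : Finset V) (F : Finset (Finset V)) (k : ℕ),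
  (∀ E ∈ F, Frag G A E ∧ nbA G A E = S ∧ ∀ v ∈ E, k ≤ dg G v) → (∀ E ∈ F, ∀ E' ∈ F, E ≠ E' → Disjoint E E') → 2 * k ≤ F.card →
  (∀ w : ↥(S ∪ F.biUnion id), k ≤ dg (G.comap (Subtype.val : ↥(S ∪ F.biUnion id) → V)) w) ∧
  2 * k ≤ Fintype.card ↥(S ∪ F.biUnion id)

/-- **CYM** (short, from DIR, STW, STD). The image of the closed path. -/
def CYM_stmt : Prop := ∀ (V : Type) [Fintype V] (G : SimpleGraph V) (A S : Finset V) (F : Finset (Finset V)) (k : ℕ), Two G → 2 ≤ k →
  (∀ E ∈ F, Frag G A E ∧ nbA G A E = S ∧ ∀ v ∈ E, k ≤ dg G v) → (∀ E ∈ F, ∀ E' ∈ F, E ≠ E' → Disjoint E E') → 2 * k ≤ F.card →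
  ∃ l : List V, Clo G l ∧ 2 * k ≤ l.length

/-! ### Assembly -/

/-- **LRG** (medium, from PBD, CMP, PIG, CYM). Suppose all closed paths have length `≤ s = c - 1`. `L = s * s`, `M = c + 2 ^ L * (c + 1) + 1`; `M + 1 ≤ 2 ^ L * (c + 2) ≤ 2 ^ (L + c)` (`c + 2 ≤ 2 ^ c`, `c + 2 ≤ 2 ^ L`), `L + c ≤ c ^ 2`, so `(M + 1) ^ L ≤ 2 ^ (c ^ 4) ≤ card V`. CMP for `A = ∅`, `D = univ` (connected: `Two`,
`3 ≤ card V`): the second alternative is against PBD. PIG for `f = nbA G A'`, `K = c + 1`, and CYM for `k = (c + 1) / 2` (`c ≤ 2 k ≤ c + 1`, `2 ≤ k`; `v ∉ Z` gives `k ≤ dg v`). -/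
def LRG_stmt : Prop := ∀ (V : Type) [Fintype V] (G : SimpleGraph V) (c : ℕ) (Z : Finset V), 3 ≤ c → Two G → Z.card ≤ c →
  (∀ v, v ∉ Z → c ≤ 2 * dg G v) → 2 ^ (c ^ 4) ≤ Fintype.card V → ∃ l : List V, Clo G l ∧ c ≤ l.length

/-- **LOW** (short-medium). Index `j + 1` of a vertex `e j`. Two vertices with `2 * dg < c` and `c ≤ 2 * index` are adjacent (no obstructing pair: their degrees are `<` their indices), so there are at most `(c + 1) / 2` of them (one has all others as neighbours); at most `(c - 1) / 2` vertices have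
`2 * index < c`. -/
def LOW_stmt : Prop := ∀ (V : Type) [Fintype V] (G : SimpleGraph V) (c : ℕ) (e : Fin (Fintype.card V) ≃ V), 3 ≤ c →
  (¬ ∃ j k : Fin (Fintype.card V), j < k ∧ c ≤ ((j : ℕ) + 1) + ((k : ℕ) + 1) ∧ ¬ G.Adj (e j) (e k) ∧
    dg G (e j) ≤ (j : ℕ) + 1 ∧ dg G (e k) ≤ (k : ℕ) ∧ dg G (e j) + dg G (e k) + 1 ≤ c) →
  ((univ : Finset V).filter (fun v => 2 * dg G v < c)).card ≤ c

/-- **FIN** (short, from LRG, LOW). `Two G` is `Pool.Agent.helper61.BM.TWC`, the closed path gives a cycle by `Pool.Agent.helper61.BM.WLK` (import `Pool.Agent.helper61.BM.TWC`, `Pool.Agent.helper61.BM.WLK`); compare `Pool.Agent.helper61.BM.ASM`. -/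
def FIN_stmt : Prop := ∀ (V : Type) [Fintype V] [DecidableEq V] (G : SimpleGraph V) [DecidableRel G.Adj] (c : ℕ),
  G.Connected → (∀ v : V, (G.induce {w : V | w ≠ v}).Connected) → 3 ≤ c → 2 ^ (c ^ 4) ≤ Fintype.card V →
  ∀ e : Fin (Fintype.card V) ≃ V,
    (¬ ∃ j k : Fin (Fintype.card V), j < k ∧ c ≤ ((j : ℕ) + 1) + ((k : ℕ) + 1) ∧ ¬ G.Adj (e j) (e k) ∧
      G.degree (e j) ≤ (j : ℕ) + 1 ∧ G.degree (e k) ≤ (k : ℕ) ∧ G.degree (e j) + G.degree (e k) + 1 ≤ c) →
    ∃ (u : V) (p : G.Walk u u), p.IsCycle ∧ c ≤ p.length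

end Pool.Agent.helper55.BL
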